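import Pool.Agent.Lib.MP_b1a3a4_al.MVS.LG.Iface
import Pool.Agent.Lib.MP_b1a3a4_al.MVS.HO.Iface
import Pool.Agent.Lib.MP_b1a3a4_al.MVS.HO.Core2

/-!
# Project MVS, part IV: final assembly
-/

set_option linter.all false

namespace Pool.Agent.Lib.MP_b1a3a4_al.MVS.LG.H45

open MVS.HO MVS.LG

/-- Final statement for limit groups. -/
def FinalLgStatement : Prop :=
  ∀ (m n : ℕ), 2 ≤ n → n ≤ m → ∀ (L : Fin m → Type) [∀ i, Group (L i)], (∀ i, FRF (L i)) →
    ∀ S : Subgroup (∀ i, L i), (∀ i, NonAb (pr S i) ∨ IsCyclic (pr S i)) → FPn ℤ S n →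
    ∀ χ : S →* Multiplicative ℝ, χ ≠ 1 → SameProj S χ n →
    (Group.IsFinitelyPresented S → InSigma2 χ) ∧ InSigma ℤ n χ ∧ InSigma ℚ n χ

theorem finallg (h1 : Top1Statement) (h2 : FpisoStatement) (h3 : FpqStatement)
    (h4 : FinIndStatement) (h5 : TopHoStatement) (h6 : ConvStatement) (h7 : FprStatement)
    (h8 : LgredStatement) : FinalLgStatement := by
  intro m n hn hnm L _ hL S hab hS χ hχ hc
  have hcond : CharCond n L S (MonoidHom.toAdditiveLeft χ) := by
    intro J hJ s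
    have h := hc J hJ
    have h9 : projJ L J (s : ∀ i, L i) ∈
        projJ L J '' (Subtype.val '' (posSub χ : Set S)) := by
      rw [h]
      exact ⟨s, s.2, rfl⟩
    obtain ⟨_, ⟨s', hs', rfl⟩, hs''⟩ := h9
    exact ⟨s', hs', fun j hj => congrFun hs'' ⟨j, hj⟩⟩
  have hχ0 : (MonoidHom.toAdditiveLeft χ : Chr S) ≠ 0 := by
    intro h
    apply hχ
    ext1 s
    exact DFunLike.congr_fun h (Additive.ofMul s)
  obtain ⟨I', _, _, L', _, S', e, hcard, hVS, hcond'⟩ :=
    h8 n (by omega) (Fin m) L hL S hab (by simpa using hnm) hS (MonoidHom.toAdditiveLeft χ) hχ0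
      hcond
  have hval : ∀ s : S', val (Chr.res (MonoidHom.toAdditiveLeft χ : Chr S) (e : S' →* S)) s =
      Multiplicative.toAdd (χ (e s)) := fun _ => rfl
  have hχ0' : Chr.res (MonoidHom.toAdditiveLeft χ : Chr S) (e : S' →* S) ≠ 0 := by
    intro h
    apply hχ
    ext1 s
    have h9 := hval (e.symm s)
    rw [h, e.apply_symm_apply] at h9
    exact h9.symm
  have hS' : FPn ℤ S' n := h2 ℤ S S' n e.symm hS
  have hsig : FPn ℤ (posSub χ) n := by
    refine h2 ℤ _ (posSub χ) n ?_ (h1 ℤ n hn I' L' S' hcard hS' hVS _ hχ0' hcond')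
    exact
      { toFun := fun s => ⟨e s.1, s.2⟩
        invFun := fun s => ⟨e.symm s.1, by
          show 0 ≤ val (Chr.res (MonoidHom.toAdditiveLeft χ : Chr S) (e : S' →* S)) (e.symm s.1)
          rw [hval, e.apply_symm_apply]; exact s.2⟩
        left_inv := fun s => by ext1; exact e.symm_apply_apply s.1
        right_inv := fun s => by ext1; exact e.apply_symm_apply s.1
        map_mul' := fun s s' => by ext1; exact map_mul e s.1 s'.1 }
  refine ⟨fun hfp => ?_, hsig, h3 _ n hsig⟩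
  have hFP : FPres S := h7 S hfp
  refine h6 S χ hχ hFP ?_
  have hses : SES (e : S' →* S) (1 : S →* Unit) := by
    refine ⟨e.injective, fun _ => ⟨1, rfl⟩, fun s => ?_⟩
    simp only [MonoidHom.one_apply, true_iff]
    exact ⟨e.symm s, e.apply_symm_apply s⟩
  have hfi := h4 S' S Unit (e : S' →* S) 1 hses
  have hFPI : FPres S' := hfi.1.2 hFP
  have key : Sig2 (Chr.res (MonoidHom.toAdditiveLeft χ : Chr S) (e : S' →* S)) :=
    h5 n hn I' L' S' hcard hFPI hS' hVS _ hχ0' hcond'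
  -- an element of positive value
  obtain ⟨s₀, hs₀⟩ : ∃ s : S, ¬ (1 ≤ χ s) := by
    by_contra hcon
    push Not at hcon
    apply hχ
    ext1 s
    refine le_antisymm ?_ (hcon s)
    have := hcon s⁻¹
    rw [map_inv] at this
    exact one_le_inv'.1 this
  have hpos : ∃ κ : S', 0 < val (MonoidHom.toAdditiveLeft χ : Chr S) ((e : S' →* S) κ) := by
    refine ⟨e.symm s₀⁻¹, ?_⟩
    show 0 < Multiplicative.toAdd (χ (e (e.symm s₀⁻¹)))
    rw [e.apply_symm_apply, map_inv, toAdd_inv]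
    have h9 : ¬ (0 ≤ Multiplicative.toAdd (χ s₀)) := hs₀
    linarith [not_le.1 h9]
  exact (hfi.2 _ hpos).1 key

end Pool.Agent.Lib.MP_b1a3a4_al.MVS.LG.H45
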