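import Pool.Agent.Lib.MP_b1a3a4_al.MVS.LG.Iface
import Pool.Agent.Lib.MP_b1a3a4_al.MVS.H27.Top

/-!
# LGRED (12.27): reduction to full subdirect products
-/

set_option linter.all false

namespace Pool.Agent.Lib.MP_b1a3a4_al.MVS.LG.H45

open Finsupp Pool.Agent.Lib.MP_b1a3a4_al.MVS Pool.Agent.Lib.MP_b1a3a4_al.MVS.LG

section

variable {I : Type} {L : I → Type} [∀ i, Group (L i)]

/-- The projection to the images in the coordinates of `U`. -/
def fU (S : Subgroup (∀ i, L i)) (U : Finset I) : S →* (∀ i : U, pr S (i : I)) where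
  toFun s i := ⟨(s : ∀ i, L i) i, ⟨s, s.2, rfl⟩⟩
  map_one' := rfl
  map_mul' _ _ := rfl

lemma fU_apply (S : Subgroup (∀ i, L i)) (U : Finset I) (s : S) (i : U) :
    ((fU S U s i : pr S (i : I)) : L i) = (s : ∀ i, L i) i := rfl

lemma ker_projJ {I : Type} (L : I → Type) [∀ i, Group (L i)] (J : Finset I) :
    (projJ L J).ker = kerJ L J := by
  ext x
  rw [MonoidHom.mem_ker]
  constructor
  · intro h j hj
    exact congrFun h ⟨j, hj⟩
  · intro h
    funext j
    exact h j.1 j.2

lemma projJ_surj {I : Type} [DecidableEq I] (L : I → Type) [∀ i, Group (L i)] (J : Finset I) :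
    Function.Surjective (projJ L J) := by
  intro y
  refine ⟨fun i => if h : i ∈ J then y ⟨i, h⟩ else 1, ?_⟩
  funext j
  show (if h : (j : I) ∈ J then y ⟨j, h⟩ else 1) = y j
  rw [dif_pos j.2]

end

lemma frf_sub {L : Type} [Group L] (h : FRF L) (K : Subgroup L) : FRF K := by
  classical
  intro X
  obtain ⟨F, iF, hF, f, hf⟩ := h (X.map (Function.Embedding.subtype _))
  refine ⟨F, iF, hF, f.comp K.subtype, ?_⟩
  intro x hx y hy hxy
  have h1 : ((x : L) ∈ ((X.map (Function.Embedding.subtype _) : Finset L) : Set L)) := by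
    simpa using hx
  have h2 : ((y : L) ∈ ((X.map (Function.Embedding.subtype _) : Finset L) : Set L)) := by
    simpa using hy
  exact Subtype.ext (hf h1 h2 hxy)

lemma nonab_equiv {K K' : Type} [Group K] [Group K'] (e : K ≃* K') (h : NonAb K) : NonAb K' := by
  obtain ⟨a, b, hab⟩ := h
  refine ⟨e a, e b, fun h2 => hab ?_⟩
  rw [← map_mul, ← map_mul] at h2
  exact e.injective h2

/-- LGRED. -/
theorem lgred (h1 : VslimStatement) (h2 : FpisoStatement) : LgredStatement := by
  intro n hn I _ _ L _ hL S hab hnI hS χ hχ hc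
  classical
  -- a minimal set of coordinates with injective projection
  obtain ⟨U, hU, hmin⟩ : ∃ U : Finset I, (∀ s : S, (∀ i ∈ U, (s : ∀ i, L i) i = 1) → s = 1) ∧
      ∀ i ∈ U, ¬ ∀ s : S, (∀ j ∈ U.erase i, (s : ∀ i, L i) j = 1) → s = 1 := by
    have hex : ∃ m : ℕ, ∃ U : Finset I, U.card = m ∧
        ∀ s : S, (∀ i ∈ U, (s : ∀ i, L i) i = 1) → s = 1 :=
      ⟨_, Finset.univ, rfl, fun s h => by
        ext1
        funext i
        exact h i (Finset.mem_univ i)⟩
    obtain ⟨U, hUc, hU⟩ := Nat.find_spec hex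
    refine ⟨U, hU, fun i hi hcon => ?_⟩
    have := Nat.find_min' hex ⟨U.erase i, rfl, hcon⟩
    rw [Finset.card_erase_of_mem hi, ← hUc] at this
    have h3 : 0 < U.card := Finset.card_pos.mpr ⟨i, hi⟩
    omega
  -- `U` has at least `n` elements
  have hnU : n ≤ U.card := by
    by_contra hlt
    push Not at hlt
    obtain ⟨J, hUJ, hJ⟩ := Finset.exists_superset_card_eq (s := U) (n := n)
      hlt.le (by simpa using hnI)
    obtain ⟨s, hs1, hs2⟩ := H27.charCond_ne hχ hc J hJ
    have : s = 1 := hU s (fun i hi => hs1 i (hUJ hi))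
    rw [this] at hs2
    exact hs2 (val_one χ)
  set f := fU S U with hf
  have hinj : Function.Injective f := by
    rw [injective_iff_map_eq_one]
    intro s hs
    refine hU s (fun i hi => ?_)
    have := congrArg Subtype.val (congrFun hs ⟨i, hi⟩)
    exact this
  let L' : U → Type := fun i => pr S (i : I)
  let S' : Subgroup (∀ i, L' i) := f.range
  let e : S' ≃* S := (MonoidHom.ofInjective hinj).symm
  have he : ∀ s : S, e (⟨f s, ⟨s, rfl⟩⟩ : S') = s := by
    intro s
    exact (MonoidHom.ofInjective hinj).symm_apply_apply s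
  have hfe : ∀ s' : S', f (e s') = (s' : ∀ i, L' i) := by
    intro s'
    have := (MonoidHom.ofInjective hinj).apply_symm_apply s'
    exact congrArg Subtype.val this
  have hfree : ∀ i : U, FRF (L' i) := fun i => frf_sub (hL i) (pr S (i : I))
  have hprS' : ∀ j : U, pr S' j = ⊤ := by
    intro j
    rw [eq_top_iff]
    rintro ⟨y, ⟨s, hs, rfl⟩⟩ -
    exact ⟨f ⟨s, hs⟩, ⟨⟨s, hs⟩, rfl⟩, rfl⟩
  refine ⟨U, inferInstance, inferInstance, L', fun i => inferInstanceAs (Group (pr S (i : I))),
    S', e, by simpa using hnU, ?_, ?_⟩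
  · intro J hJ
    have key := h1 n hn U L' hfree Finset.univ S'
      (fun s _ i hi => absurd (Finset.mem_univ i) hi)
      (by
        intro i _ hbot
        obtain ⟨s, hs⟩ := not_forall.mp (hmin i.1 i.2)
        rw [Classical.not_imp] at hs
        obtain ⟨hs1, hs2⟩ := hs
        have hmem : (f s) i ∈ nr S' i := by
          show (MonoidHom.mulSingle L' i) ((f s) i) ∈ S'
          have : (MonoidHom.mulSingle L' i) ((f s) i) = f s := by
            funext j
            by_cases hj : j = i
            · subst hj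
              simp
            · have h4 : f s j = 1 := by
                apply Subtype.ext
                exact hs1 j.1 (Finset.mem_erase.mpr ⟨fun h => hj (Subtype.ext h), j.2⟩)
              rw [h4]
              simp [MonoidHom.mulSingle_apply, Pi.mulSingle_eq_of_ne hj]
          rw [this]
          exact ⟨s, rfl⟩
        rw [hbot, Subgroup.mem_bot] at hmem
        apply hs2
        refine hU s (fun j hj => ?_)
        by_cases hji : j = i.1
        · subst hji
          exact congrArg Subtype.val hmem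
        · exact hs1 j (Finset.mem_erase.mpr ⟨hji, hj⟩))
      (by
        intro i _
        have e1 : pr S (i : I) ≃* pr S' i :=
          (Subgroup.topEquiv.symm).trans (MulEquiv.subgroupCongr (hprS' i).symm)
        rcases hab (i : I) with h | h
        · exact Or.inl (nonab_equiv e1 h)
        · exact Or.inr (e1.isCyclic.1 h))
      (h2 ℤ S S' n e.symm hS) J (Finset.subset_univ J) hJ
    have hpi : piS Finset.univ S' = ⊤ := by
      rw [eq_top_iff]
      intro x _
      refine ⟨fun j => ?_, fun j hj => absurd (Finset.mem_univ j) hj⟩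
      rw [hprS' j]
      trivial
    rw [hpi, Subgroup.relIndex_top_right] at key
    constructor
    rw [Subgroup.index_map, ker_projJ, MonoidHom.range_eq_top.mpr (projJ_surj L' J),
      Subgroup.index_top, mul_one]
    exact key
  · intro J hJ s
    obtain ⟨s', hs1, hs2⟩ := hc (J.map (Function.Embedding.subtype _)) (by simpa using hJ) (e s)
    refine ⟨⟨f s', ⟨s', rfl⟩⟩, ?_, ?_⟩
    · rw [val_res]
      show 0 ≤ val χ (e ⟨f s', ⟨s', rfl⟩⟩)
      rw [he]
      exact hs1
    · intro j hj
      have h5 := hs2 j.1 (Finset.mem_map.mpr ⟨j, hj, rfl⟩)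
      apply Subtype.ext
      rw [← hfe s]
      exact h5

end Pool.Agent.Lib.MP_b1a3a4_al.MVS.LG.H45
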