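import Pool.Agent.Lib.MP_b1a3a4_al.MVS.LG.Iface

/-!
# PROJ (12.4): projections to closed invariant subspaces
-/

set_option linter.all false

namespace Pool.Agent.Lib.MP_b1a3a4_al.MVS.LG.H45

open Finsupp Pool.Agent.Lib.MP_b1a3a4_al.MVS.LG

theorem proj1 {T Ω : Type} [Group T] (α : T →* Equiv.Perm Ω) (W : Submodule ℝ (L2 Ω))
    (hW : IsClosed (W : Set (L2 Ω))) (hinv : ∀ t, ∀ ξ ∈ W, tr (α t) ξ ∈ W) :
    ∃ P : L2 Ω →L[ℝ] L2 Ω, IsPr P ∧ (∀ ξ, P ξ = ξ ↔ ξ ∈ W) ∧ Eqv α α P := by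
  haveI : CompleteSpace W := hW.completeSpace_coe
  have hmem : ∀ ξ : L2 Ω, W.starProjection ξ ∈ W := fun ξ => Submodule.starProjection_apply_mem W ξ
  have hfix : ∀ ξ : L2 Ω, W.starProjection ξ = ξ ↔ ξ ∈ W := fun ξ =>
    Submodule.starProjection_eq_self_iff
  refine ⟨W.starProjection, ⟨fun ξ => (hfix _).2 (hmem ξ), fun ξ η => ?_⟩, hfix, fun t ξ => ?_⟩
  · exact Submodule.inner_starProjection_left_eq_right W ξ η
  · refine Submodule.eq_starProjection_of_mem_of_inner_eq_zero (hinv t _ (hmem ξ)) ?_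
    intro w hw
    have h1 : w = tr (α t) (tr (α t⁻¹) w) := by
      rw [← tr_mul, ← map_mul, mul_inv_cancel, map_one, tr_one]
    rw [h1, ← map_sub, inner_tr]
    exact Submodule.starProjection_inner_eq_zero ξ _ (hinv t⁻¹ w hw)

/-- properties of a decreasing sequence of projections -/
lemma fix_of_le {Ω : Type} (P : ℕ → L2 Ω →L[ℝ] L2 Ω)
    (hdec : ∀ m ξ, P (m + 1) ξ = ξ → P m ξ = ξ) {l m : ℕ} (hlm : l ≤ m) {ξ : L2 Ω}
    (h : P m ξ = ξ) : P l ξ = ξ := by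
  induction m, hlm using Nat.le_induction with
  | base => exact h
  | succ m hm ih => exact ih (hdec m ξ h)

lemma normsq_sub {Ω : Type} (P : ℕ → L2 Ω →L[ℝ] L2 Ω) (hP : ∀ m, IsPr (P m))
    (hdec : ∀ m ξ, P (m + 1) ξ = ξ → P m ξ = ξ) {l m : ℕ} (hlm : l ≤ m) (ξ : L2 Ω) :
    ‖P l ξ - P m ξ‖ ^ 2 = ‖P l ξ‖ ^ 2 - ‖P m ξ‖ ^ 2 := by
  have h1 : P l (P m ξ) = P m ξ := fix_of_le P hdec hlm ((hP m).idem ξ)
  have h2 : inner ℝ (P l ξ) (P m ξ) = ‖P m ξ‖ ^ 2 := by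
    rw [(hP l).symm, h1, ← (hP m).idem ξ, ← (hP m).symm, (hP m).idem,
      real_inner_self_eq_norm_sq]
  rw [norm_sub_sq_real, h2]
  ring

theorem proj2 {Ω : Type} (P : ℕ → L2 Ω →L[ℝ] L2 Ω) (hP : ∀ m, IsPr (P m))
    (hdec : ∀ m ξ, P (m + 1) ξ = ξ → P m ξ = ξ) (hz : ∀ ξ, (∀ m, P m ξ = ξ) → ξ = 0)
    (ξ : L2 Ω) : Filter.Tendsto (fun m => ‖P m ξ‖ ^ 2) Filter.atTop (nhds 0) := by
  have hanti : Antitone (fun m => ‖P m ξ‖ ^ 2) := by
    intro l m hlm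
    have := normsq_sub P hP hdec hlm ξ
    have h0 := sq_nonneg ‖P l ξ - P m ξ‖
    show ‖P m ξ‖ ^ 2 ≤ ‖P l ξ‖ ^ 2
    linarith
  have hbdd : BddBelow (Set.range fun m => ‖P m ξ‖ ^ 2) :=
    ⟨0, by rintro _ ⟨m, rfl⟩; exact sq_nonneg _⟩
  have hlim := tendsto_atTop_ciInf hanti hbdd
  have hcs : CauchySeq (fun m => P m ξ) := by
    rw [Metric.cauchySeq_iff']
    intro ε hε
    have hc := Metric.cauchySeq_iff'.1 hlim.cauchySeq (ε ^ 2) (by positivity)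
    obtain ⟨N, hN⟩ := hc
    refine ⟨N, fun m hm => ?_⟩
    have h1 := hN m hm
    rw [Real.dist_eq] at h1
    have h2 := normsq_sub P hP hdec hm ξ
    have h3 : ‖P N ξ - P m ξ‖ ^ 2 < ε ^ 2 := by
      rw [h2]
      have := (abs_lt.1 h1).1
      linarith
    rw [dist_comm, dist_eq_norm]
    exact lt_of_pow_lt_pow_left₀ 2 hε.le h3
  obtain ⟨η, hη⟩ := cauchySeq_tendsto_of_complete hcs
  have hfix : ∀ l, P l η = η := by
    intro l
    have h1 : Filter.Tendsto (fun m => P l (P m ξ)) Filter.atTop (nhds (P l η)) :=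
      ((P l).continuous.tendsto η).comp hη
    have h2 : Filter.Tendsto (fun m => P l (P m ξ)) Filter.atTop (nhds η) := by
      refine hη.congr' ?_
      filter_upwards [Filter.eventually_ge_atTop l] with m hm
      exact (fix_of_le P hdec hm ((hP m).idem ξ)).symm
    exact tendsto_nhds_unique h1 h2
  have h0 : η = 0 := hz η hfix
  rw [h0] at hη
  have := (hη.norm).pow 2
  simpa using this

/-- PROJ. -/
theorem proj : ProjStatement :=
  ⟨fun T Ω _ α W hW hinv => proj1 α W hW hinv, fun Ω P hP hdec hz ξ => proj2 P hP hdec hz ξ⟩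

end Pool.Agent.Lib.MP_b1a3a4_al.MVS.LG.H45
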